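import Mathlib.Analysis.Calculus.Deriv.MeanValue
import Mathlib.Analysis.Calculus.Darboux
import Mathlib.Analysis.SpecificLimits.Basic
import Mathlib.Topology.Order.IntermediateValue
import Mathlib.MeasureTheory.Integral.IntervalIntegral.FundThmCalculus

/-!
DOUBLING GIVES A DENSE SET OF QUADRATIC POINTS (pure convexity, Mathlib only; helper20).

A convex function whose second order increments are doubling, uniformly in the base point, has exactly quadratic
increments (lower and upper bound, both sides) at a dense set of points: among the windows of half the length of a given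
window there is one with exactly the same density of `J'`, and the intersection of the nested windows is such a point.
-/

namespace Pool.Agent.W_7d29a1_X20

open Set Filter Topology

/-- The half window of the same density. -/
theorem half_window {g : ℝ → ℝ} {s l ρ : ℝ} (hl : 0 < l) (hc : ContinuousOn g (Icc s (s + l)))
    (h : g (s + l) - g s = ρ * l) : ∃ t, s ≤ t ∧ t + l / 2 ≤ s + l ∧ g (t + l / 2) - g t = ρ * (l / 2) := by
  have hc' : ContinuousOn (fun t => g (t + l / 2) - g t) (Icc s (s + l / 2)) := by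
    refine ContinuousOn.sub (hc.comp (by fun_prop) ?_) (hc.mono ?_)
    · intro t ht
      exact ⟨by linarith [ht.1], by linarith [ht.2]⟩
    · intro t ht
      exact ⟨ht.1, by linarith [ht.2]⟩
  have e : s + l / 2 + l / 2 = s + l := by ring
  have hsum : (g (s + l / 2) - g s) + (g (s + l / 2 + l / 2) - g (s + l / 2)) = ρ * l := by
    rw [e, ← h]
    ring
  have hle : s ≤ s + l / 2 := by linarith
  rcases le_total (g (s + l / 2) - g s) (ρ * (l / 2)) with h1 | h1
  · have h2 : ρ * (l / 2) ≤ g (s + l / 2 + l / 2) - g (s + l / 2) := by linarith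
    obtain ⟨t, ht, hte⟩ := intermediate_value_Icc hle hc' ⟨h1, h2⟩
    exact ⟨t, ht.1, by linarith [ht.2], hte⟩
  · have h2 : g (s + l / 2 + l / 2) - g (s + l / 2) ≤ ρ * (l / 2) := by linarith
    obtain ⟨t, ht, hte⟩ := intermediate_value_Icc' hle hc' ⟨h2, h1⟩
    exact ⟨t, ht.1, by linarith [ht.2], hte⟩

/-- A point which is in windows of all dyadic lengths with the same density. -/
theorem nested_windows {g : ℝ → ℝ} {a b ρ : ℝ} (hab : a < b) (hc : ContinuousOn g (Icc a b))
    (h : g b - g a = ρ * (b - a)) : ∃ v, ∀ k : ℕ, ∃ s, a ≤ s ∧ s + (b - a) / 2 ^ k ≤ b ∧ s ≤ v ∧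
      v ≤ s + (b - a) / 2 ^ k ∧ g (s + (b - a) / 2 ^ k) - g s = ρ * ((b - a) / 2 ^ k) := by
  -- the step
  have step : ∀ k : ℕ, ∀ s : ℝ, a ≤ s → s + (b - a) / 2 ^ k ≤ b →
      g (s + (b - a) / 2 ^ k) - g s = ρ * ((b - a) / 2 ^ k) → ∃ t, s ≤ t ∧
      t + (b - a) / 2 ^ (k + 1) ≤ s + (b - a) / 2 ^ k ∧
      g (t + (b - a) / 2 ^ (k + 1)) - g t = ρ * ((b - a) / 2 ^ (k + 1)) := by
    intro k s h1 h2 h3
    have hl : 0 < (b - a) / 2 ^ k := div_pos (by linarith) (by positivity)
    obtain ⟨t, ht1, ht2, ht3⟩ := half_window hl (hc.mono (Icc_subset_Icc h1 h2)) h3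
    have e : (b - a) / 2 ^ (k + 1) = (b - a) / 2 ^ k / 2 := by
      rw [pow_succ]
      field_simp
    exact ⟨t, ht1, by rw [e]; exact ht2, by rw [e]; exact ht3⟩
  choose! T hT using step
  -- the sequence
  let s : ℕ → ℝ := fun n => Nat.rec a (fun k r => T k r) n
  have hs0 : s 0 = a := rfl
  have hss : ∀ k, s (k + 1) = T k (s k) := fun k => rfl
  have hI : ∀ k, a ≤ s k ∧ s k + (b - a) / 2 ^ k ≤ b ∧ g (s k + (b - a) / 2 ^ k) - g (s k) = ρ * ((b - a) / 2 ^ k) := by
    intro k
    induction k with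
    | zero =>
      rw [hs0]
      simp only [pow_zero, div_one]
      refine ⟨le_rfl, by linarith, ?_⟩
      rw [show a + (b - a) = b by ring]
      exact h
    | succ k ih =>
      obtain ⟨h1, h2, h3⟩ := hT k (s k) ih.1 ih.2.1 ih.2.2
      rw [hss]
      exact ⟨ih.1.trans h1, h2.trans ih.2.1, h3⟩
  have hmono : Monotone s := monotone_nat_of_le_succ fun k => by
    rw [hss]
    exact (hT k (s k) (hI k).1 (hI k).2.1 (hI k).2.2).1
  have hanti : Antitone fun k => s k + (b - a) / 2 ^ k := antitone_nat_of_succ_le fun k => by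
    show s (k + 1) + (b - a) / 2 ^ (k + 1) ≤ s k + (b - a) / 2 ^ k
    rw [hss]
    exact (hT k (s k) (hI k).1 (hI k).2.1 (hI k).2.2).2.1
  have hpos : ∀ k : ℕ, 0 < (b - a) / 2 ^ k := fun k => div_pos (by linarith) (by positivity)
  have hle : ∀ j k, s j ≤ s k + (b - a) / 2 ^ k := by
    intro j k
    rcases le_total j k with hjk | hjk
    · exact (hmono hjk).trans (by linarith [hpos k])
    · exact le_trans (by linarith [hpos j]) (hanti hjk)
  have hbdd : BddAbove (range s) := ⟨b, by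
    rintro _ ⟨j, rfl⟩
    have := (hI j).2.1
    linarith [hpos j]⟩
  refine ⟨⨆ j, s j, fun k => ⟨s k, (hI k).1, (hI k).2.1, le_ciSup hbdd k, ciSup_le fun j => hle j k, (hI k).2.2⟩⟩

/-- DOUBLING GIVES QUADRATIC POINTS, for the derivative. -/
theorem quad_point {g : ℝ → ℝ} {a b C u₀ : ℝ} (hab : a < b) (hc : ContinuousOn g (Icc a b))
    (hg : MonotoneOn g (Icc a b)) (hgab : g a < g b) (hC : 0 < C) (hu₀ : 0 < u₀)
    (hR : ∀ v u : ℝ, a ≤ v → 0 < u → u ≤ u₀ → v + 2 * u ≤ b → g (v + 2 * u) - g v ≤ C * (g (v + u) - g v))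
    (hL : ∀ v u : ℝ, v ≤ b → 0 < u → u ≤ u₀ → a ≤ v - 2 * u → g v - g (v - 2 * u) ≤ C * (g v - g (v - u))) :
    ∃ v, a < v ∧ v < b ∧ ∃ k K r : ℝ, 0 < k ∧ 0 < K ∧ 0 < r ∧ ∀ u : ℝ, 0 ≤ u → u ≤ r → a ≤ v - u ∧ v + u ≤ b ∧
      k * u ≤ g (v + u) - g v ∧ g (v + u) - g v ≤ K * u ∧ k * u ≤ g v - g (v - u) ∧ g v - g (v - u) ≤ K * u := by
  -- an interior window of positive density
  obtain ⟨a', ha', hga'⟩ := intermediate_value_Ioo hab.le hc (show g a + (g b - g a) / 3 ∈ Ioo (g a) (g b) from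
    ⟨by linarith, by linarith⟩)
  obtain ⟨b', hb', hgb'⟩ := intermediate_value_Ioo hab.le hc (show g a + 2 * (g b - g a) / 3 ∈ Ioo (g a) (g b) from
    ⟨by linarith, by linarith⟩)
  have hab' : a' < b' := by
    by_contra hcon
    have h1 := hg ⟨hb'.1.le, hb'.2.le⟩ ⟨ha'.1.le, ha'.2.le⟩ (not_lt.1 hcon)
    rw [hga', hgb'] at h1
    linarith
  obtain ⟨ρ, hρ⟩ : ∃ ρ, ρ = (g b' - g a') / (b' - a') := ⟨_, rfl⟩
  have hba : 0 < b' - a' := by linarith
  have hρ0 : 0 < ρ := by
    rw [hρ]
    refine div_pos ?_ hba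
    rw [hga', hgb']
    linarith
  have hρ1 : g b' - g a' = ρ * (b' - a') := by
    rw [hρ, div_mul_cancel₀ _ hba.ne']
  obtain ⟨v, hv⟩ := nested_windows hab' (hc.mono (Icc_subset_Icc ha'.1.le hb'.2.le)) hρ1
  have hv0 : a' ≤ v ∧ v ≤ b' := by
    obtain ⟨s, h1, h2, h3, h4, -⟩ := hv 0
    exact ⟨h1.trans h3, h4.trans h2⟩
  refine ⟨v, by linarith [ha'.1, hv0.1], by linarith [hb'.2, hv0.2], ρ / (2 * C), 2 * C ^ 2 * ρ,
    min (min (b' - a') (u₀ / 2)) (min ((a' - a) / 4) ((b - b') / 4)), by positivity, by positivity,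
    lt_min (lt_min hba (by linarith)) (lt_min (by linarith [ha'.1]) (by linarith [hb'.2])), fun u hu0 hur => ?_⟩
  have hu1 : u ≤ b' - a' := hur.trans ((min_le_left _ _).trans (min_le_left _ _))
  have hu2 : u ≤ u₀ / 2 := hur.trans ((min_le_left _ _).trans (min_le_right _ _))
  have hu3 : u ≤ (a' - a) / 4 := hur.trans ((min_le_right _ _).trans (min_le_left _ _))
  have hu4 : u ≤ (b - b') / 4 := hur.trans ((min_le_right _ _).trans (min_le_right _ _))
  have hva : a ≤ v - u := by linarith [hv0.1]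
  have hvb : v + u ≤ b := by linarith [hv0.2]
  refine ⟨hva, hvb, ?_⟩
  rcases hu0.eq_or_lt with rfl | hu0
  · simp
  -- the dyadic length
  obtain ⟨k, hk1, hk2⟩ : ∃ k : ℕ, (b' - a') / 2 ^ k ≤ u ∧ u ≤ 2 * ((b' - a') / 2 ^ k) := by
    obtain ⟨n, hn⟩ := exists_pow_lt_of_lt_one (show 0 < u / (b' - a') by positivity) (show (1 / 2 : ℝ) < 1 by norm_num)
    have hex : ∃ n : ℕ, (b' - a') / 2 ^ n ≤ u := by
      refine ⟨n, ?_⟩
      rw [lt_div_iff₀ hba, one_div, inv_pow] at hn
      rw [div_eq_inv_mul]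
      exact hn.le
    classical
    refine ⟨Nat.find hex, Nat.find_spec hex, ?_⟩
    rcases Nat.eq_zero_or_pos (Nat.find hex) with h0 | h0
    · rw [h0, pow_zero, div_one]
      linarith
    · have h1 := Nat.find_min hex (Nat.sub_lt h0 one_pos)
      have h2 : (2 : ℝ) ^ Nat.find hex = 2 ^ (Nat.find hex - 1) * 2 := by
        rw [← pow_succ, Nat.sub_add_cancel h0]
      rw [h2]
      have h3 : ∀ P : ℝ, 2 * ((b' - a') / (P * 2)) = (b' - a') / P := fun P => by
        rw [← div_div]
        ring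
      rw [h3]
      exact (not_le.1 h1).le
  obtain ⟨l, hl⟩ : ∃ l, l = (b' - a') / 2 ^ k := ⟨_, rfl⟩
  obtain ⟨s, hs1, hs2, hs3, hs4, hs5⟩ := hv k
  rw [← hl] at hk1 hk2 hs2 hs4 hs5
  have hl0 : 0 < l := by linarith
  have mono : ∀ x y : ℝ, a ≤ x → x ≤ y → y ≤ b → g x ≤ g y := fun x y h1 h2 h3 => hg ⟨h1, h2.trans h3⟩ ⟨h1.trans h2, h3⟩ h2
  -- the lower bound of the two sided increment
  have hlow : ρ * l ≤ g (v + u) - g (v - u) := by
    have h1 := mono (v - u) s hva (by linarith) (by linarith)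
    have h2 := mono (s + l) (v + u) (by linarith) (by linarith) hvb
    linarith
  -- the upper bound of the two sided increment
  have hup1 : g (v + u) - g s ≤ C ^ 2 * (ρ * l) := by
    have h1 := hR s (2 * l) (by linarith [ha'.1]) (by linarith) (by linarith) (by linarith)
    have h2 := hR s l (by linarith [ha'.1]) hl0 (by linarith) (by linarith)
    have h3 := mono (v + u) (s + 2 * (2 * l)) (by linarith) (by linarith) (by linarith)
    rw [hs5] at h2
    have h4 := mul_le_mul_of_nonneg_left h2 hC.le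
    calc g (v + u) - g s ≤ C * (C * (ρ * l)) := by linarith
      _ = C ^ 2 * (ρ * l) := by ring
  have hup2 : g (s + l) - g (v - u) ≤ C ^ 2 * (ρ * l) := by
    have h1 := hL (s + l) (2 * l) (by linarith [hb'.2]) (by linarith) (by linarith) (by linarith)
    have h2 := hL (s + l) l (by linarith [hb'.2]) hl0 (by linarith) (by linarith)
    have h3 := mono (s + l - 2 * (2 * l)) (v - u) (by linarith) (by linarith) (by linarith)
    rw [show s + l - l = s by ring, hs5] at h2
    have h4 := mul_le_mul_of_nonneg_left h2 hC.le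
    calc g (s + l) - g (v - u) ≤ C * (C * (ρ * l)) := by linarith
      _ = C ^ 2 * (ρ * l) := by ring
  have hup : g (v + u) - g (v - u) ≤ 2 * C ^ 2 * (ρ * l) := by
    have h1 := mono s (s + l) (by linarith [ha'.1]) (by linarith) (by linarith [hb'.2])
    nlinarith
  -- the two sides
  have hr := hL (v + u) u hvb hu0 (by linarith) (by linarith)
  have hl' := hR (v - u) u hva hu0 (by linarith) (by linarith)
  rw [show v + u - 2 * u = v - u by ring, show v + u - u = v by ring] at hr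
  rw [show v - u + 2 * u = v + u by ring, show v - u + u = v by ring] at hl'
  have m1 := mono (v - u) v hva (by linarith) (by linarith)
  have m2 := mono v (v + u) (by linarith) (by linarith) hvb
  have hul : ρ * (u / 2) ≤ ρ * l := mul_le_mul_of_nonneg_left (by linarith) hρ0.le
  have hlu : ρ * l ≤ ρ * u := mul_le_mul_of_nonneg_left hk1 hρ0.le
  have hC2 : 0 < C ^ 2 := by positivity
  have hkey : ∀ t : ℝ, ρ * (u / 2) ≤ C * t → ρ / (2 * C) * u ≤ t := by
    intro t ht
    rw [div_mul_eq_mul_div, div_le_iff₀ (by positivity)]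
    linarith
  have hKey : 2 * C ^ 2 * (ρ * l) ≤ 2 * C ^ 2 * ρ * u := by
    have := mul_le_mul_of_nonneg_left hlu (by positivity : (0 : ℝ) ≤ 2 * C ^ 2)
    linarith
  exact ⟨hkey _ (by linarith), by linarith, hkey _ (by linarith), by linarith⟩

/-- The two tangent inequalities, to the right of `x`. -/
theorem tangent {J g : ℝ → ℝ} {a b : ℝ} (hJ : ∀ v : ℝ, a ≤ v → v ≤ b → HasDerivAt J (g v) v)
    (hg : MonotoneOn g (Icc a b)) {x y : ℝ} (hx : a ≤ x) (hxy : x ≤ y) (hy : y ≤ b) :
    g x * (y - x) ≤ J y - J x ∧ J y - J x ≤ g y * (y - x) := by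
  rcases hxy.eq_or_lt with rfl | hxy
  · simp
  obtain ⟨c, hc, hce⟩ := exists_hasDerivAt_eq_slope J g hxy
    (fun t ht => (hJ t (hx.trans ht.1) (ht.2.trans hy)).continuousAt.continuousWithinAt)
    (fun t ht => hJ t (hx.trans ht.1.le) (ht.2.le.trans hy))
  have h0 : 0 < y - x := by linarith
  rw [eq_div_iff h0.ne'] at hce
  rw [← hce]
  have h1 := hg ⟨hx, (hc.1.trans hc.2).le.trans hy⟩ ⟨hx.trans hc.1.le, hc.2.le.trans hy⟩ hc.1.le
  have h2 := hg ⟨hx.trans hc.1.le, hc.2.le.trans hy⟩ ⟨hx.trans (hc.1.trans hc.2).le, hy⟩ hc.2.le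
  exact ⟨mul_le_mul_of_nonneg_right h1 h0.le, mul_le_mul_of_nonneg_right h2 h0.le⟩

/-- A monotone derivative is continuous (Darboux). -/
theorem deriv_cont {J g : ℝ → ℝ} {a b : ℝ} (hJ : ∀ v : ℝ, a ≤ v → v ≤ b → HasDerivAt J (g v) v)
    (hg : MonotoneOn g (Icc a b)) : ContinuousOn g (Icc a b) := by
  intro v hv
  rw [Metric.continuousWithinAt_iff]
  intro ε hε
  have hD : ∀ x y m : ℝ, a ≤ x → x ≤ y → y ≤ b → g x < m → m < g y → ∃ w, x < w ∧ w < y ∧ g w = m := by
    intro x y m hx hxy hy h1 h2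
    have h3 := (exists_hasDerivWithinAt_eq_of_gt_of_lt (f := J) (f' := g) hxy
      (fun t ht => (hJ t (hx.trans ht.1) (ht.2.trans hy)).hasDerivWithinAt) h1 h2)
    obtain ⟨w, hw, hwe⟩ := h3
    exact ⟨w, hw.1, hw.2, hwe⟩
  -- to the right
  obtain ⟨δ₁, hδ₁, h1⟩ : ∃ δ > 0, ∀ t, v ≤ t → t ≤ b → t < v + δ → g t < g v + ε := by
    by_cases h : g b < g v + ε
    · exact ⟨1, one_pos, fun t h1 h2 _ => (hg ⟨hv.1.trans h1, h2⟩ ⟨hv.1.trans hv.2, le_rfl⟩ h2).trans_lt h⟩
    · obtain ⟨w, hw1, hw2, hw3⟩ := hD v b (g v + ε / 2) hv.1 hv.2 le_rfl (by linarith) (by linarith [not_lt.1 h])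
      refine ⟨w - v, by linarith, fun t h1 h2 h3 => ?_⟩
      have := hg ⟨hv.1.trans h1, h2⟩ ⟨hv.1.trans hw1.le, hw2.le⟩ (show t ≤ w by linarith)
      linarith
  -- to the left
  obtain ⟨δ₂, hδ₂, h2⟩ : ∃ δ > 0, ∀ t, a ≤ t → t ≤ v → v - δ < t → g v - ε < g t := by
    by_cases h : g v - ε < g a
    · exact ⟨1, one_pos, fun t h1 h2 _ => h.trans_le (hg ⟨le_rfl, hv.1.trans hv.2⟩ ⟨h1, h2.trans hv.2⟩ h1)⟩
    · obtain ⟨w, hw1, hw2, hw3⟩ := hD a v (g v - ε / 2) le_rfl hv.1 hv.2 (by linarith [not_lt.1 h]) (by linarith)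
      refine ⟨v - w, by linarith, fun t h1 h2 h3 => ?_⟩
      have := hg ⟨hw1.le, hw2.le.trans hv.2⟩ ⟨h1, h2.trans hv.2⟩ (show w ≤ t by linarith)
      linarith
  refine ⟨min δ₁ δ₂, lt_min hδ₁ hδ₂, fun {t} ht hdt => ?_⟩
  rw [Real.dist_eq, abs_lt] at hdt ⊢
  have hd1 := min_le_left δ₁ δ₂
  have hd2 := min_le_right δ₁ δ₂
  rcases le_total v t with hvt | hvt
  · have h3 := h1 t hvt ht.2 (by linarith)
    have h4 := hg hv ht hvt
    exact ⟨by linarith, by linarith⟩
  · have h3 := h2 t ht.1 hvt (by linarith)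
    have h4 := hg ht hv hvt
    exact ⟨by linarith, by linarith⟩

/-- DOUBLING GIVES A QUADRATIC POINT IN EVERY INTERVAL. If the second order increments
`J (v + u) - J v - J' v u` of a convex function are doubling in `u`, uniformly in `v` (in the interval `[a, b]`, on which
`J` is not affine), then there is a point of `(a, b)` at which they are exactly of the order `u ^ 2`. -/
theorem quad_point_J {J g : ℝ → ℝ} {a b C u₀ : ℝ} (hab : a < b)
    (hJ : ∀ v : ℝ, a ≤ v → v ≤ b → HasDerivAt J (g v) v) (hg : MonotoneOn g (Icc a b)) (hgab : g a < g b)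
    (hC : 0 < C) (hu₀ : 0 < u₀)
    (hD : ∀ v u : ℝ, a ≤ v → v ≤ b → |u| ≤ u₀ → a ≤ v + 2 * u → v + 2 * u ≤ b →
      J (v + 2 * u) - J v - g v * (2 * u) ≤ C * (J (v + u) - J v - g v * u)) :
    ∃ v, a < v ∧ v < b ∧ ∃ k K r : ℝ, 0 < k ∧ 0 < K ∧ 0 < r ∧ ∀ u : ℝ, |u| ≤ r → a ≤ v + u ∧ v + u ≤ b ∧
      k * u ^ 2 ≤ J (v + u) - J v - g v * u ∧ J (v + u) - J v - g v * u ≤ K * u ^ 2 := by
  have hc := deriv_cont hJ hg
  -- an interior interval on which `g` is not constant
  obtain ⟨a', ha', hga'⟩ := intermediate_value_Ioo hab.le hc (show g a + (g b - g a) / 3 ∈ Ioo (g a) (g b) from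
    ⟨by linarith, by linarith⟩)
  obtain ⟨b', hb', hgb'⟩ := intermediate_value_Ioo hab.le hc (show g a + 2 * (g b - g a) / 3 ∈ Ioo (g a) (g b) from
    ⟨by linarith, by linarith⟩)
  have hab' : a' < b' := by
    by_contra hcon
    have h1 := hg ⟨hb'.1.le, hb'.2.le⟩ ⟨ha'.1.le, ha'.2.le⟩ (not_lt.1 hcon)
    rw [hga', hgb'] at h1
    linarith
  have haa := ha'.1
  have hbb := hb'.2
  -- doubling of the derivative
  have hR : ∀ v u : ℝ, a' ≤ v → 0 < u → u ≤ min (u₀ / 2) (min ((b - b') / 2) ((a' - a) / 2)) → v + 2 * u ≤ b' →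
      g (v + 2 * u) - g v ≤ C ^ 2 * (g (v + u) - g v) := by
    intro v u hv hu hu1 hvb
    have h1 : u ≤ u₀ / 2 := hu1.trans (min_le_left _ _)
    have h2 : u ≤ (b - b') / 2 := hu1.trans ((min_le_right _ _).trans (min_le_left _ _))
    have d1 := hD v u (by linarith) (by linarith) (by rw [abs_of_pos hu]; linarith) (by linarith) (by linarith)
    have d2 := hD v (2 * u) (by linarith) (by linarith) (by rw [abs_of_pos (by linarith)]; linarith) (by linarith)
      (by linarith)
    have t1 := (tangent hJ hg (x := v + 2 * u) (y := v + 2 * (2 * u)) (by linarith) (by linarith) (by linarith)).1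
    have t2 := (tangent hJ hg (x := v) (y := v + 2 * u) (by linarith) (by linarith) (by linarith)).1
    have t3 := (tangent hJ hg (x := v) (y := v + u) (by linarith) (by linarith) (by linarith)).2
    have e1 : v + 2 * (2 * u) - (v + 2 * u) = 2 * u := by ring
    have e2 : v + 2 * u - v = 2 * u := by ring
    have e3 : v + u - v = u := by ring
    rw [e1] at t1
    rw [e2] at t2
    rw [e3] at t3
    have d3 := mul_le_mul_of_nonneg_left d1 hC.le
    have d4 : J (v + u) - J v - g v * u ≤ (g (v + u) - g v) * u := by linarith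
    have d5 := mul_le_mul_of_nonneg_left d4 (sq_nonneg C)
    have d6 : (g (v + 2 * u) - g v) * (2 * u) ≤ C ^ 2 * ((g (v + u) - g v) * u) := by
      calc (g (v + 2 * u) - g v) * (2 * u) ≤ J (v + 2 * (2 * u)) - J v - g v * (2 * (2 * u)) := by linarith
        _ ≤ C * (J (v + 2 * u) - J v - g v * (2 * u)) := d2
        _ ≤ C * (C * (J (v + u) - J v - g v * u)) := d3
        _ = C ^ 2 * (J (v + u) - J v - g v * u) := by ring
        _ ≤ C ^ 2 * ((g (v + u) - g v) * u) := d5
    have d7 : (g (v + 2 * u) - g v) * 2 * u ≤ C ^ 2 * (g (v + u) - g v) * u := by linarith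
    have d8 := le_of_mul_le_mul_right d7 hu
    have d9 := hg ⟨by linarith, by linarith⟩ ⟨by linarith, by linarith⟩ (show v ≤ v + 2 * u by linarith)
    linarith
  have hL : ∀ v u : ℝ, v ≤ b' → 0 < u → u ≤ min (u₀ / 2) (min ((b - b') / 2) ((a' - a) / 2)) → a' ≤ v - 2 * u →
      g v - g (v - 2 * u) ≤ C ^ 2 * (g v - g (v - u)) := by
    intro v u hv hu hu1 hva
    have h1 : u ≤ u₀ / 2 := hu1.trans (min_le_left _ _)
    have h2 : u ≤ (a' - a) / 2 := hu1.trans ((min_le_right _ _).trans (min_le_right _ _))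
    have d1 := hD v (-u) (by linarith) (by linarith) (by rw [abs_neg, abs_of_pos hu]; linarith) (by linarith)
      (by linarith)
    have d2 := hD v (-(2 * u)) (by linarith) (by linarith) (by rw [abs_neg, abs_of_pos (by linarith)]; linarith)
      (by linarith) (by linarith)
    have e0 : v + 2 * -u = v - 2 * u := by ring
    have e0' : v + -(2 * u) = v - 2 * u := by ring
    have e0'' : v + 2 * -(2 * u) = v - 2 * (2 * u) := by ring
    have e0''' : v + -u = v - u := by ring
    rw [e0, e0'''] at d1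
    rw [e0', e0''] at d2
    have t1 := (tangent hJ hg (x := v - 2 * (2 * u)) (y := v - 2 * u) (by linarith) (by linarith) (by linarith)).2
    have t2 := (tangent hJ hg (x := v - 2 * u) (y := v) (by linarith) (by linarith) (by linarith)).2
    have t3 := (tangent hJ hg (x := v - u) (y := v) (by linarith) (by linarith) (by linarith)).1
    have e1 : v - 2 * u - (v - 2 * (2 * u)) = 2 * u := by ring
    have e2 : v - (v - 2 * u) = 2 * u := by ring
    have e3 : v - (v - u) = u := by ring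
    rw [e1] at t1
    rw [e2] at t2
    rw [e3] at t3
    have d3 := mul_le_mul_of_nonneg_left d1 hC.le
    have d4 : J (v - u) - J v - g v * -u ≤ (g v - g (v - u)) * u := by linarith
    have d5 := mul_le_mul_of_nonneg_left d4 (sq_nonneg C)
    have d6 : (g v - g (v - 2 * u)) * (2 * u) ≤ C ^ 2 * ((g v - g (v - u)) * u) := by
      calc (g v - g (v - 2 * u)) * (2 * u) ≤ J (v - 2 * (2 * u)) - J v - g v * (2 * -(2 * u)) := by linarith
        _ ≤ C * (J (v - 2 * u) - J v - g v * -(2 * u)) := d2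
        _ = C * (J (v - 2 * u) - J v - g v * (2 * -u)) := by ring
        _ ≤ C * (C * (J (v - u) - J v - g v * -u)) := d3
        _ = C ^ 2 * (J (v - u) - J v - g v * -u) := by ring
        _ ≤ C ^ 2 * ((g v - g (v - u)) * u) := d5
    have d7 : (g v - g (v - 2 * u)) * 2 * u ≤ C ^ 2 * (g v - g (v - u)) * u := by linarith
    have d8 := le_of_mul_le_mul_right d7 hu
    have d9 := hg ⟨by linarith, by linarith⟩ ⟨by linarith, by linarith⟩ (show v - 2 * u ≤ v by linarith)
    linarith
  obtain ⟨v, hav, hvb, k, K, r, hk, hK, hr, h⟩ := quad_point hab' (hc.mono (Icc_subset_Icc haa.le hbb.le))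
    (hg.mono (Icc_subset_Icc haa.le hbb.le)) (by rw [hga', hgb']; linarith) (by positivity : 0 < C ^ 2)
    (lt_min (by linarith) (lt_min (by linarith) (by linarith))) hR hL
  refine ⟨v, by linarith, by linarith, k / 4, K, r, by linarith, hK, hr, fun u hu => ?_⟩
  rcases le_total 0 u with hu0 | hu0
  · rw [abs_of_nonneg hu0] at hu
    obtain ⟨h1, h2, -, h4, -, -⟩ := h u hu0 hu
    obtain ⟨-, -, h3, -, -, -⟩ := h (u / 2) (by linarith) (by linarith)
    have t1 := (tangent hJ hg (x := v) (y := v + u) (by linarith) (by linarith) (by linarith)).2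
    have t2 := (tangent hJ hg (x := v) (y := v + u / 2) (by linarith) (by linarith) (by linarith)).1
    have t3 := (tangent hJ hg (x := v + u / 2) (y := v + u) (by linarith) (by linarith) (by linarith)).1
    have e1 : v + u - v = u := by ring
    have e2 : v + u / 2 - v = u / 2 := by ring
    have e3 : v + u - (v + u / 2) = u / 2 := by ring
    rw [e1] at t1
    rw [e2] at t2
    rw [e3] at t3
    have m1 := mul_le_mul_of_nonneg_right h4 hu0
    have m2 := mul_le_mul_of_nonneg_right h3 (show 0 ≤ u / 2 by linarith)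
    refine ⟨by linarith, by linarith, ?_, ?_⟩
    · calc k / 4 * u ^ 2 = k * (u / 2) * (u / 2) := by ring
        _ ≤ (g (v + u / 2) - g v) * (u / 2) := m2
        _ ≤ _ := by linarith
    · calc J (v + u) - J v - g v * u ≤ (g (v + u) - g v) * u := by linarith
        _ ≤ K * u * u := m1
        _ = K * u ^ 2 := by ring
  · rw [abs_of_nonpos hu0] at hu
    obtain ⟨h1, h2, -, -, -, h4⟩ := h (-u) (by linarith) hu
    obtain ⟨-, -, -, -, h3, -⟩ := h (-u / 2) (by linarith) (by linarith)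
    have e4 : v - -u = v + u := by ring
    have e5 : v - -u / 2 = v + u / 2 := by ring
    rw [e4] at h1 h4
    rw [e5] at h3
    have t1 := (tangent hJ hg (x := v + u) (y := v) (by linarith) (by linarith) (by linarith)).1
    have t2 := (tangent hJ hg (x := v + u / 2) (y := v) (by linarith) (by linarith) (by linarith)).2
    have t3 := (tangent hJ hg (x := v + u) (y := v + u / 2) (by linarith) (by linarith) (by linarith)).2
    have e1 : v - (v + u) = -u := by ring
    have e2 : v - (v + u / 2) = -u / 2 := by ring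
    have e3 : v + u / 2 - (v + u) = -u / 2 := by ring
    rw [e1] at t1
    rw [e2] at t2
    rw [e3] at t3
    have m1 := mul_le_mul_of_nonneg_right h4 (show 0 ≤ -u by linarith)
    have m2 := mul_le_mul_of_nonneg_right h3 (show 0 ≤ -u / 2 by linarith)
    refine ⟨by linarith, by linarith, ?_, ?_⟩
    · calc k / 4 * u ^ 2 = k * (-u / 2) * (-u / 2) := by ring
        _ ≤ (g v - g (v + u / 2)) * (-u / 2) := m2
        _ ≤ _ := by linarith
    · calc J (v + u) - J v - g v * u ≤ (g v - g (v + u)) * -u := by linarith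
        _ ≤ K * -u * -u := m1
        _ = K * u ^ 2 := by ring

end Pool.Agent.W_7d29a1_X20
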